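import Pool.Agent.Y766.R11.Stm
import Pool.Agent.Y678.R10.Ofm

/-!
Project R11 (helper766), job OFS (MP_0f5a55_nt): the off-diagonal terms at `s`. The weight at `s`
is the weight at `1 / 2` for the function `v ↦ G v * q ^ (-(s - 1 / 2) v)`, up to the factor
`l ^ (-(s - 1 / 2))`; in this way the statement follows from the one at `1 / 2`. The first three
declarations are helper528's proof of OFL (`Pool/Agent/Y528/R10/Ofl.lean`), adapted to the final
statement of OFL.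
-/

set_option autoImplicit false

namespace Pool.Agent.Y872.R11

open Finset
open Pool.Agent.Y766.R3 (FF)
open Pool.Agent.Y766.R10 (WG ww S_OFF S_OFM S_OFL)
open Pool.Agent.Y766.R11

/-- splitting a sum over `l` according to the power of `p` dividing `l`
(after `Pool.Agent.Y766.R7.split_v`) -/
lemma split_nat {p : ℕ} (hp : p.Prime) {M m ν : ℕ} (hM : M < p ^ ν) (G : ℕ → ℕ → ℝ)
    (hG : ∀ i l, 0 ≤ G i l) (hG' : ∀ v l : ℕ, G m (p ^ v * l) = G (m + v) l) :
    ∑ l ∈ Icc 1 (M / p ^ m), G m l ≤ ∑ v ∈ range (ν - m),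
      ∑ l ∈ (Icc 1 (M / p ^ (m + v))).filter (fun l => ¬ p ∣ l), G (m + v) l := by
  classical
  haveI := Fact.mk hp
  have hval : ∀ l ∈ Icc 1 (M / p ^ m), p ^ padicValNat p l ∣ l ∧ p ^ (m + padicValNat p l) ≤ M := by
    intro l hl
    rw [mem_Icc] at hl
    have h1 : p ^ padicValNat p l ∣ l := pow_padicValNat_dvd
    refine ⟨h1, ?_⟩
    have h2 : p ^ padicValNat p l ≤ l := Nat.le_of_dvd (by omega) h1
    calc p ^ (m + padicValNat p l) = p ^ m * p ^ padicValNat p l := pow_add _ _ _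
      _ ≤ p ^ m * (M / p ^ m) := Nat.mul_le_mul_left _ (h2.trans hl.2)
      _ ≤ M := Nat.mul_div_le M (p ^ m)
  calc ∑ l ∈ Icc 1 (M / p ^ m), G m l ≤
        ∑ l ∈ Icc 1 (M / p ^ m), ∑ v ∈ range (ν - m),
          (if padicValNat p l = v then G m l else 0) := by
        refine sum_le_sum fun l hl => ?_
        have h2 : padicValNat p l ∈ range (ν - m) := by
          have h3 := (hval l hl).2
          have h4 : m + padicValNat p l < ν := (Nat.pow_lt_pow_iff_right hp.one_lt).1 (by omega)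
          rw [mem_range]; omega
        rw [sum_ite_eq, if_pos h2]
    _ = ∑ v ∈ range (ν - m), ∑ l ∈ (Icc 1 (M / p ^ m)).filter (fun l => padicValNat p l = v),
          G m l := by
        rw [sum_comm]
        refine sum_congr rfl fun v _ => ?_
        rw [sum_filter]
    _ ≤ _ := by
        refine sum_le_sum fun v _ => ?_
        have hle : ∀ l ∈ (Icc 1 (M / p ^ m)).filter (fun l => padicValNat p l = v),
            l = p ^ v * (l / p ^ v) := by
          intro l hl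
          rw [mem_filter] at hl
          have h1 := (hval l hl.1).1
          rw [hl.2] at h1
          exact (Nat.mul_div_cancel' h1).symm
        have hinj : Set.InjOn (fun l => l / p ^ v)
            ((Icc 1 (M / p ^ m)).filter (fun l => padicValNat p l = v)) := by
          intro l hl l' hl' h
          have h1 : l / p ^ v = l' / p ^ v := h
          rw [hle l hl, hle l' hl', h1]
        have e1 : ∑ l ∈ (Icc 1 (M / p ^ m)).filter (fun l => padicValNat p l = v), G m l =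
            ∑ l ∈ ((Icc 1 (M / p ^ m)).filter (fun l => padicValNat p l = v)).image
              (fun l => l / p ^ v), G (m + v) l := by
          rw [sum_image hinj]
          refine sum_congr rfl fun l hl => ?_
          rw [← hG', ← hle l hl]
        rw [e1]
        refine sum_le_sum_of_subset_of_nonneg ?_ fun _ _ _ => hG _ _
        intro x hx
        rw [mem_image] at hx
        obtain ⟨l, hl, rfl⟩ := hx
        have h0 := hle l hl
        rw [mem_filter, mem_Icc] at hl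
        rw [mem_filter, mem_Icc]
        have hl1 : 1 ≤ l / p ^ v := by
          rcases Nat.eq_zero_or_pos (l / p ^ v) with h | h
          · rw [h] at h0; omega
          · exact h
        have hl2 : l / p ^ v ≤ M / p ^ (m + v) := by
          rw [pow_add, ← Nat.div_div_eq_div_mul]
          exact Nat.div_le_div_right hl.1.2
        refine ⟨⟨hl1, hl2⟩, ?_⟩
        intro hd
        have h5 : p ^ (v + 1) ∣ l := by
          rw [h0, pow_succ]
          exact Nat.mul_dvd_mul_left _ hd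
        have h6 := pow_succ_padicValNat_not_dvd (p := p) (by omega : l ≠ 0)
        rw [hl.2] at h6
        exact h6 h5

lemma nat_le_pow' {δ : ℝ} (hδ : 0 < δ) (n : ℕ) :
    (n : ℝ) ≤ (1 / (δ * Real.log 2)) * ((2 : ℝ) ^ n) ^ δ := by
  have hl : 0 < Real.log 2 := Real.log_pos (by norm_num)
  have e : ((2 : ℝ) ^ n) ^ δ = Real.exp (n * (δ * Real.log 2)) := by
    rw [← Real.rpow_natCast, ← Real.rpow_mul (by norm_num), Real.rpow_def_of_pos (by norm_num)]
    congr 1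
    ring
  have h := Real.add_one_le_exp ((n : ℝ) * (δ * Real.log 2))
  rw [e, one_div, inv_mul_eq_div, le_div_iff₀ (by positivity)]
  linarith

theorem ofl (h : S_OFM) : S_OFL := by
  intro δ hδ
  obtain ⟨κ₁, η, hκ₁, hη, h10, h1⟩ := h δ hδ
  refine ⟨κ₁, η / 2, hκ₁, by positivity, by linarith, ?_⟩
  intro κ hκ hκ' t p hp hp7
  obtain ⟨C, ν₀, hC, h2⟩ := h1 κ hκ hκ' t p hp hp7
  have hη2 : 0 < η / 2 := by positivity
  have hlog : 0 < Real.log 2 := Real.log_pos (by norm_num)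
  set c1 : ℝ := 1 / (η / 2 * Real.log 2) with hc1
  have hc10 : 0 < c1 := by positivity
  refine ⟨C * c1, ν₀, by positivity, ?_⟩
  intro ν m hν hm hmν hmδ χ hχ B G hG a ha hsupp l1 l2 hl1 hl2 hl1' hl2' hpl1 hpl2 M hM
  have hp7' : (7 : ℝ) ≤ p := by exact_mod_cast hp7
  set q : ℝ := (p : ℝ) ^ ν with hq
  have hq1 : 1 ≤ q := one_le_pow₀ (by linarith)
  have hq0 : 0 < q := by linarith
  set T : ℕ → ℕ → ℝ := fun i h => ‖∑ n ∈ (Icc 1 M).filter (fun n => l2 ∣ n ∧ l1 ∣ n + p ^ i * h),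
        FF χ ((p : ℤ) ^ i * (h : ℤ)) (n : ℤ) * (ww q t G l1 (n + p ^ i * h) *
          (starRingEnd ℂ) (ww q t G l2 n))‖ with hT
  have hT0 : ∀ i l, 0 ≤ T i l := fun i l => norm_nonneg _
  have hT1 : ∀ v l : ℕ, T m (p ^ v * l) = T (m + v) l := by
    intro v l
    have e1 : p ^ m * (p ^ v * l) = p ^ (m + v) * l := by ring
    have e2 : (p : ℤ) ^ m * ((p ^ v * l : ℕ) : ℤ) = (p : ℤ) ^ (m + v) * (l : ℤ) := by
      push_cast; ring
    simp only [hT]
    rw [e1, e2]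
  have h3 := split_nat hp (by omega : M < p ^ ν) T hT0 hT1
  refine h3.trans ?_
  have h4 : ∀ v ∈ range (ν - m),
      ∑ l ∈ (Icc 1 (M / p ^ (m + v))).filter (fun l => ¬ p ∣ l), T (m + v) l ≤
        C * B ^ 2 * q ^ (-η) := by
    intro v hv
    rw [mem_range] at hv
    refine h2 ν (m + v) hν (by omega) (by omega) ?_ χ hχ B G hG a ha hsupp l1 l2 hl1 hl2 hl1'
      hl2' hpl1 hpl2 M hM
    push_cast
    have : (0 : ℝ) ≤ v := Nat.cast_nonneg v
    linarith
  refine (sum_le_sum h4).trans ?_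
  rw [sum_const, card_range, nsmul_eq_mul]
  have h5 : ((ν - m : ℕ) : ℝ) ≤ c1 * q ^ (η / 2) := by
    have h6 : ((ν - m : ℕ) : ℝ) ≤ (ν : ℝ) := by exact_mod_cast Nat.sub_le ν m
    have h7 := nat_le_pow' hη2 ν
    have h8 : ((2 : ℝ) ^ ν) ^ (η / 2) ≤ q ^ (η / 2) := by
      rw [hq]
      have : (2 : ℝ) ≤ p := by linarith
      gcongr
    exact h6.trans (h7.trans (by gcongr))
  have h9 : q ^ (η / 2) * q ^ (-η) = q ^ (-(η / 2)) := by
    rw [← Real.rpow_add hq0]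
    congr 1
    ring
  have h10' : 0 ≤ C * B ^ 2 * q ^ (-η) := by positivity
  calc ((ν - m : ℕ) : ℝ) * (C * B ^ 2 * q ^ (-η)) ≤
        c1 * q ^ (η / 2) * (C * B ^ 2 * q ^ (-η)) := mul_le_mul_of_nonneg_right h5 h10'
    _ = C * c1 * B ^ 2 * (q ^ (η / 2) * q ^ (-η)) := by ring
    _ = C * c1 * B ^ 2 * q ^ (-(η / 2)) := by rw [h9]


/-- multiplication of a weight by an exponential function -/
theorem wg_mul {B : ℝ} {G : ℝ → ℂ} (hG : WG B G) {a b : ℝ}
    (hs : ∀ v, v ∉ Set.Icc a b → G v = 0) (c : ℂ) {M : ℝ} (hM0 : 0 ≤ M)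
    (hM : ∀ v ∈ Set.Icc a b, ‖Complex.exp (c * (v : ℂ))‖ ≤ M) :
    WG (B * M * (1 + ‖c‖) ^ 2) (fun v : ℝ => G v * Complex.exp (c * (v : ℂ))) := by
  have hB : 0 ≤ B := (norm_nonneg _).trans (hG.b0 0)
  have hE : ∀ v : ℝ, HasDerivAt (fun v : ℝ => Complex.exp (c * (v : ℂ)))
      (c * Complex.exp (c * (v : ℂ))) v := by
    intro v
    have h1 : HasDerivAt (fun v : ℝ => c * (v : ℂ)) (c * 1) v :=
      (Complex.ofRealCLM.hasDerivAt (x := v)).const_mul c
    have h2 := h1.cexp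
    refine h2.congr_deriv ?_
    ring
  have hEs : ContDiff ℝ ((⊤ : ℕ∞) : WithTop ℕ∞) (fun v : ℝ => Complex.exp (c * (v : ℂ))) := by
    apply ContDiff.cexp
    exact contDiff_const.mul Complex.ofRealCLM.contDiff
  have hGd : ∀ v, HasDerivAt G (deriv G v) v := fun v =>
    (hG.smooth.differentiable (by simp) v).hasDerivAt
  have hG1 : ContDiff ℝ ((⊤ : ℕ∞) : WithTop ℕ∞) (deriv G) :=
    (contDiff_infty_iff_deriv.mp hG.smooth).2
  have hGdd : ∀ v, HasDerivAt (deriv G) (deriv (deriv G) v) v := fun v =>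
    (hG1.differentiable (by simp) v).hasDerivAt
  have e1 : deriv (fun v : ℝ => G v * Complex.exp (c * (v : ℂ))) =
      fun v => deriv G v * Complex.exp (c * (v : ℂ)) +
        G v * (c * Complex.exp (c * (v : ℂ))) := by
    funext v
    exact ((hGd v).mul (hE v)).deriv
  have e2 : deriv (deriv (fun v : ℝ => G v * Complex.exp (c * (v : ℂ)))) =
      fun v => (deriv (deriv G) v * Complex.exp (c * (v : ℂ)) +
        deriv G v * (c * Complex.exp (c * (v : ℂ)))) +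
        (deriv G v * (c * Complex.exp (c * (v : ℂ))) +
          G v * (c * (c * Complex.exp (c * (v : ℂ))))) := by
    rw [e1]
    funext v
    exact (((hGdd v).mul (hE v)).add ((hGd v).mul ((hE v).const_mul c))).deriv
  -- outside the support
  have hopen : IsOpen (Set.Icc a b)ᶜ := isClosed_Icc.isOpen_compl
  have z1 : ∀ v, v ∉ Set.Icc a b → deriv G v = 0 := by
    intro v hv
    have h1 : G =ᶠ[nhds v] fun _ => 0 := by
      filter_upwards [hopen.mem_nhds hv] with w hw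
      exact hs w hw
    rw [h1.deriv_eq]
    exact deriv_const v 0
  have z2 : ∀ v, v ∉ Set.Icc a b → deriv (deriv G) v = 0 := by
    intro v hv
    have h1 : deriv G =ᶠ[nhds v] fun _ => 0 := by
      filter_upwards [hopen.mem_nhds hv] with w hw
      exact z1 w hw
    rw [h1.deriv_eq]
    exact deriv_const v 0
  have hc : 0 ≤ ‖c‖ := norm_nonneg c
  have hBM : 0 ≤ B * M := mul_nonneg hB hM0
  have m1 : ∀ (x y : ℂ) (X Y : ℝ), ‖x‖ ≤ X → ‖y‖ ≤ Y → ‖x * y‖ ≤ X * Y := by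
    intro x y X Y hx hy
    rw [norm_mul]
    exact mul_le_mul hx hy (norm_nonneg _) ((norm_nonneg _).trans hx)
  have hR : 0 ≤ B * M * (1 + ‖c‖) ^ 2 := by positivity
  refine ⟨hG.smooth.mul hEs, fun v => ?_, fun v => ?_, fun v => ?_⟩
  · by_cases hv : v ∈ Set.Icc a b
    · exact (m1 _ _ _ _ (hG.b0 v) (hM v hv)).trans
        (le_mul_of_one_le_right hBM (one_le_pow₀ (by linarith)))
    · show ‖G v * Complex.exp (c * (v : ℂ))‖ ≤ _
      rw [hs v hv, zero_mul, norm_zero]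
      exact hR
  · rw [e1]
    by_cases hv : v ∈ Set.Icc a b
    · have a1 := m1 _ _ _ _ (hG.b1 v) (hM v hv)
      have a2 := m1 _ _ _ _ (hG.b0 v) (m1 _ _ _ _ (le_refl ‖c‖) (hM v hv))
      refine (norm_add_le _ _).trans ((add_le_add a1 a2).trans ?_)
      have : B * M + B * (‖c‖ * M) = B * M * (1 + ‖c‖) := by ring
      rw [this]
      apply mul_le_mul_of_nonneg_left _ hBM
      nlinarith
    · show ‖deriv G v * Complex.exp (c * (v : ℂ)) + G v * (c * Complex.exp (c * (v : ℂ)))‖ ≤ _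
      rw [hs v hv, z1 v hv, zero_mul, zero_mul, add_zero, norm_zero]
      exact hR
  · rw [e2]
    by_cases hv : v ∈ Set.Icc a b
    · have a1 := m1 _ _ _ _ (hG.b2 v) (hM v hv)
      have a2 := m1 _ _ _ _ (hG.b1 v) (m1 _ _ _ _ (le_refl ‖c‖) (hM v hv))
      have a3 := m1 _ _ _ _ (hG.b0 v)
        (m1 _ _ _ _ (le_refl ‖c‖) (m1 _ _ _ _ (le_refl ‖c‖) (hM v hv)))
      refine (norm_add_le _ _).trans ((add_le_add ((norm_add_le _ _).trans (add_le_add a1 a2))
        ((norm_add_le _ _).trans (add_le_add a2 a3))).trans (le_of_eq ?_))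
      ring
    · show ‖(deriv (deriv G) v * Complex.exp (c * (v : ℂ)) +
        deriv G v * (c * Complex.exp (c * (v : ℂ)))) +
        (deriv G v * (c * Complex.exp (c * (v : ℂ))) +
          G v * (c * (c * Complex.exp (c * (v : ℂ)))))‖ ≤ _
      rw [hs v hv, z1 v hv, z2 v hv, zero_mul, zero_mul, zero_mul, add_zero, add_zero, norm_zero]
      exact hR

/-- the weight at `s` from a weight at `1 / 2` -/
theorem ws_eq {q : ℝ} (hq : 0 < Real.log q) (s : ℂ) (G : ℝ → ℂ) {l n : ℕ} (hl : 1 ≤ l)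
    (hn : 1 ≤ n) : ws q s G l n = (l : ℂ) ^ (-(s - 1 / 2)) *
      ww q 0 (fun v : ℝ => G v * Complex.exp (-(s - 1 / 2) * (Real.log q : ℂ) * (v : ℂ))) l n := by
  have hl0 : (l : ℂ) ≠ 0 := by
    have : l ≠ 0 := by omega
    exact_mod_cast this
  have hn0 : (n : ℂ) ≠ 0 := by
    have : n ≠ 0 := by omega
    exact_mod_cast this
  unfold ws ww
  have hlog : (Real.log q : ℂ) ≠ 0 := by exact_mod_cast hq.ne'
  have e1 : -(s - 1 / 2) * (Real.log q : ℂ) *
      (((Real.log n - Real.log l) / Real.log q : ℝ) : ℂ) =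
      -(s - 1 / 2) * Complex.log n + (s - 1 / 2) * Complex.log l := by
    rw [← Complex.natCast_log, ← Complex.natCast_log]
    push_cast
    field_simp
    ring
  simp only
  rw [e1, Complex.exp_add, Complex.cpow_def_of_ne_zero hl0, Complex.cpow_def_of_ne_zero hn0,
    Complex.cpow_def_of_ne_zero hn0]
  have e2 : Complex.exp (Complex.log l * -(s - 1 / 2)) *
      Complex.exp ((s - 1 / 2) * Complex.log l) = 1 := by
    rw [← Complex.exp_add]
    have : Complex.log l * -(s - 1 / 2) + (s - 1 / 2) * Complex.log l = 0 := by ring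
    rw [this, Complex.exp_zero]
  have e3 : Complex.exp (Complex.log n * -(1 / 2 + ((0 : ℝ) : ℂ) * Complex.I)) *
      Complex.exp (-(s - 1 / 2) * Complex.log n) = Complex.exp (Complex.log n * -s) := by
    rw [← Complex.exp_add]
    congr 1
    push_cast
    ring
  rw [← e3]
  linear_combination (-(Complex.exp (Complex.log n * -(1 / 2 + ((0 : ℝ) : ℂ) * Complex.I)) *
    Complex.exp (-(s - 1 / 2) * Complex.log n) * G ((Real.log n - Real.log l) / Real.log q))) * e2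

theorem norm_l {q Λ κ : ℝ} (hq : 1 ≤ Real.log q) (hq0 : 0 < q) (hΛ : 0 < Λ) (hκ0 : 0 < κ)
    (hκ : κ ≤ 1) {s : ℂ} (hs : 1 / 2 - Λ / Real.log q ≤ s.re) {l : ℕ} (hl : 1 ≤ l)
    (hlq : (l : ℝ) ≤ q ^ κ) : ‖(l : ℂ) ^ (-(s - 1 / 2))‖ ≤ Real.exp Λ := by
  have hl0 : (0 : ℝ) < l := by exact_mod_cast hl
  have hL : 0 < Real.log q := by linarith
  have e0 : (l : ℂ) = ((l : ℝ) : ℂ) := by push_cast; rfl
  rw [e0, Complex.norm_cpow_eq_rpow_re_of_pos hl0]
  have e1 : (-(s - 1 / 2)).re = 1 / 2 - s.re := by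
    simp
  rw [e1, Real.rpow_def_of_pos hl0]
  apply Real.exp_le_exp.2
  have h1 : 0 ≤ Real.log l := Real.log_nonneg (by exact_mod_cast hl)
  have h2 : Real.log l ≤ κ * Real.log q := by
    have := Real.log_le_log hl0 hlq
    rwa [Real.log_rpow hq0] at this
  have h3 : 1 / 2 - s.re ≤ Λ / Real.log q := by linarith
  have h4 : Real.log l * (1 / 2 - s.re) ≤ Real.log l * (Λ / Real.log q) :=
    mul_le_mul_of_nonneg_left h3 h1
  have h5 : Real.log l * (Λ / Real.log q) ≤ κ * Real.log q * (Λ / Real.log q) :=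
    mul_le_mul_of_nonneg_right h2 (by positivity)
  have h6 : κ * Real.log q * (Λ / Real.log q) = κ * Λ := by
    field_simp
  nlinarith

theorem ofs (h : S_OFF) : S_OFS := by
  intro δ hδ
  obtain ⟨κ₀, η₀, hκ₀, hη₀, -, hO⟩ := ofl (Pool.Agent.Y678.R10.ofm h) δ hδ
  obtain ⟨κ₁, hκ₁⟩ : ∃ κ₁, κ₁ = min κ₀ (min (1 / 100) (η₀ / 60)) := ⟨_, rfl⟩
  have k1 : 0 < κ₁ := by
    rw [hκ₁]
    exact lt_min hκ₀ (lt_min (by norm_num) (by positivity))
  have k2 : κ₁ ≤ κ₀ := by rw [hκ₁]; exact min_le_left _ _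
  have k3 : κ₁ ≤ 1 / 100 := by rw [hκ₁]; exact (min_le_right _ _).trans (min_le_left _ _)
  have k4 : κ₁ ≤ η₀ / 60 := by rw [hκ₁]; exact (min_le_right _ _).trans (min_le_right _ _)
  refine ⟨κ₁, η₀ / 2, k1, k3, by positivity, by linarith, ?_⟩
  intro κ hκ0 hκ T Λ hΛ p hp hp7
  obtain ⟨C, ν₀, hC, hO⟩ := hO κ hκ0 (hκ.trans k2) 0 p hp hp7
  obtain ⟨A, hA⟩ : ∃ A : ℝ, A = 2 + Λ + |T| := ⟨_, rfl⟩
  have hA0 : 0 < A := by rw [hA]; positivity
  refine ⟨C * Real.exp Λ ^ 4 * A ^ 4 * (16 / η₀) ^ 4, ν₀, by positivity, ?_⟩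
  intro ν m hν hm hmν hmδ χ hχ B G hG a ha hGs s hs l1 l2 hl1 hl2 hl1q hl2q hpl1 hpl2 M hM
  have hB : 0 ≤ B := (norm_nonneg _).trans (hG.b0 0)
  obtain ⟨q, hq⟩ : ∃ q : ℝ, q = (p : ℝ) ^ ν := ⟨_, rfl⟩
  rw [← hq] at hs hl1q hl2q ⊢
  have hp1 : (1 : ℝ) < p := by
    have : (7 : ℝ) ≤ p := by exact_mod_cast hp7
    linarith
  have hq7 : 7 ≤ q := by
    have h7 : (7 : ℝ) ≤ p := by exact_mod_cast hp7
    have h1 : (p : ℝ) ^ 1 ≤ (p : ℝ) ^ ν := pow_le_pow_right₀ hp1.le (by omega)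
    rw [pow_one] at h1
    rw [hq]
    linarith
  have hq1 : 1 < q := by linarith
  have hq0 : 0 < q := by linarith
  have hL : 1 ≤ Real.log q := by
    rw [Real.le_log_iff_exp_le hq0]
    have := Real.exp_one_lt_d9
    linarith
  have hL0 : 0 < Real.log q := by linarith
  have qpos : ∀ x : ℝ, 0 < q ^ x := fun x => Real.rpow_pos_of_pos hq0 x
  obtain ⟨hs1, hs2, hs3⟩ := hs
  by_cases hacase : a < -(2 * κ)
  · -- all terms vanish
    have hz : ∀ n : ℕ, 1 ≤ n → ws q s G l2 n = 0 := by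
      intro n hn
      unfold ws
      rw [hGs, mul_zero]
      intro hv
      have h1 : (Real.log n - Real.log l2) / Real.log q ≤ a + κ := hv.2
      rw [div_le_iff₀ hL0] at h1
      have h2 : 0 ≤ Real.log n := Real.log_nonneg (by exact_mod_cast hn)
      have h3 : Real.log l2 ≤ κ * Real.log q := by
        have h4 : (0 : ℝ) < l2 := by exact_mod_cast hl2
        have := Real.log_le_log h4 hl2q
        rwa [Real.log_rpow hq0] at this
      nlinarith
    have hz2 : ∀ h ∈ Icc 1 (M / p ^ m),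
        ‖∑ n ∈ (Icc 1 M).filter (fun n => l2 ∣ n ∧ l1 ∣ n + p ^ m * h),
        FF χ ((p : ℤ) ^ m * (h : ℤ)) (n : ℤ) * (ws q s G l1 (n + p ^ m * h) *
          (starRingEnd ℂ) (ws q s G l2 n))‖ = 0 := by
      intro h _
      rw [norm_eq_zero]
      refine sum_eq_zero fun n hn => ?_
      rw [mem_filter, mem_Icc] at hn
      rw [hz n hn.1.1, map_zero, mul_zero, mul_zero]
    rw [sum_congr rfl hz2, sum_const_zero]
    positivity
  push Not at hacase
  obtain ⟨c, hc⟩ : ∃ c : ℂ, c = -(s - 1 / 2) * (Real.log q : ℂ) := ⟨_, rfl⟩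
  have hcre : c.re = -(s.re - 1 / 2) * Real.log q := by
    rw [hc, Complex.mul_re, Complex.ofReal_re, Complex.ofReal_im, mul_zero, sub_zero]
    simp
  have hcn : 1 + ‖c‖ ≤ A * Real.log q := by
    have h1 : ‖c‖ = ‖s - 1 / 2‖ * Real.log q := by
      rw [hc, norm_mul, norm_neg, Complex.norm_real, Real.norm_of_nonneg hL0.le]
    have h2 : ‖s - 1 / 2‖ ≤ |(s - 1 / 2).re| + |(s - 1 / 2).im| := Complex.norm_le_abs_re_add_abs_im _
    have h3 : (s - 1 / 2).re = s.re - 1 / 2 := by simp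
    have h4 : (s - 1 / 2).im = s.im := by simp
    rw [h3, h4] at h2
    have h5 : |s.re - 1 / 2| ≤ 1 + Λ := by
      rw [abs_le]
      have h6 : Λ / Real.log q ≤ Λ := div_le_self hΛ.le hL
      constructor <;> linarith
    have h6 : |s.im| ≤ |T| := hs3.trans (le_abs_self T)
    have h7 : ‖s - 1 / 2‖ ≤ 1 + Λ + |T| := by linarith
    rw [h1, hA]
    nlinarith
  obtain ⟨Mx, hMx⟩ : ∃ Mx : ℝ, Mx = Real.exp Λ * q ^ (κ / 2) := ⟨_, rfl⟩
  have hMx0 : 0 ≤ Mx := by rw [hMx]; positivity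
  have hMb : ∀ v ∈ Set.Icc a (a + κ), ‖Complex.exp (c * (v : ℂ))‖ ≤ Mx := by
    intro v hv
    have e1 : (c * (v : ℂ)).re = -(s.re - 1 / 2) * Real.log q * v := by
      rw [Complex.mul_re, Complex.ofReal_re, Complex.ofReal_im, mul_zero, sub_zero, hcre]
    rw [Complex.norm_exp, e1, hMx, Real.rpow_def_of_pos hq0, ← Real.exp_add]
    apply Real.exp_le_exp.2
    have hv1 : -(2 * κ) ≤ v := hacase.trans hv.1
    have hv2 : v ≤ 1 := by linarith [hv.2]
    rcases le_total 0 (s.re - 1 / 2) with hβ | hβ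
    · have h1 : (s.re - 1 / 2) * -v ≤ 1 / 4 * (2 * κ) := by
        rcases le_total 0 v with h0 | h0
        · have h3 : (s.re - 1 / 2) * -v ≤ 0 :=
            mul_nonpos_of_nonneg_of_nonpos hβ (by linarith)
          linarith
        · exact mul_le_mul (by linarith) (by linarith) (by linarith) (by norm_num)
      have h2 := mul_le_mul_of_nonneg_right h1 hL0.le
      have h3 : -(s.re - 1 / 2) * Real.log q * v = (s.re - 1 / 2) * -v * Real.log q := by ring
      rw [h3]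
      linarith
    · have h1 : (1 / 2 - s.re) * Real.log q ≤ Λ := by
        have h2 : 1 / 2 - s.re ≤ Λ / Real.log q := by linarith
        rwa [le_div_iff₀ hL0] at h2
      have h2 : 0 ≤ (1 / 2 - s.re) * Real.log q := mul_nonneg (by linarith) hL0.le
      have h3 : (1 / 2 - s.re) * Real.log q * v ≤ Λ := by
        rcases le_total 0 v with h0 | h0
        · exact (mul_le_of_le_one_right h2 hv2).trans h1
        · exact (mul_nonpos_of_nonneg_of_nonpos h2 h0).trans hΛ.le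
      have h4 : 0 ≤ Real.log q * (κ / 2) := by positivity
      have h5 : -(s.re - 1 / 2) * Real.log q * v = (1 / 2 - s.re) * Real.log q * v := by ring
      rw [h5]
      linarith
  obtain ⟨G', hG'⟩ : ∃ G' : ℝ → ℂ, G' = fun v : ℝ => G v * Complex.exp (c * (v : ℂ)) := ⟨_, rfl⟩
  have hWG : WG (B * Mx * (1 + ‖c‖) ^ 2) G' := by
    rw [hG']
    exact wg_mul hG hGs c hMx0 hMb
  have hGs' : ∀ v, v ∉ Set.Icc a (a + κ) → G' v = 0 := by
    intro v hv
    rw [hG']
    simp only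
    rw [hGs v hv, zero_mul]
  have hO1 := hO ν m hν hm hmν hmδ χ hχ _ G' hWG a ha hGs' l1 l2 hl1 hl2
    (by rw [← hq]; exact hl1q) (by rw [← hq]; exact hl2q) hpl1 hpl2 M hM
  rw [← hq] at hO1
  -- comparison of the sums
  obtain ⟨c1, hc1⟩ : ∃ c1 : ℂ, c1 = (l1 : ℂ) ^ (-(s - 1 / 2)) := ⟨_, rfl⟩
  obtain ⟨c2, hc2⟩ : ∃ c2 : ℂ, c2 = (l2 : ℂ) ^ (-(s - 1 / 2)) := ⟨_, rfl⟩
  have hn1 : ‖c1‖ ≤ Real.exp Λ := by
    rw [hc1]
    exact norm_l hL hq0 hΛ hκ0 (by linarith) hs1 hl1 hl1q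
  have hn2 : ‖c2‖ ≤ Real.exp Λ := by
    rw [hc2]
    exact norm_l hL hq0 hΛ hκ0 (by linarith) hs1 hl2 hl2q
  have hw : ∀ (l n : ℕ), 1 ≤ l → 1 ≤ n → ws q s G l n =
      (l : ℂ) ^ (-(s - 1 / 2)) * ww q 0 G' l n := by
    intro l n hl hn
    rw [ws_eq hL0 s G hl hn, hG', hc]
  have hcmp : ∀ h ∈ Icc 1 (M / p ^ m),
      ‖∑ n ∈ (Icc 1 M).filter (fun n => l2 ∣ n ∧ l1 ∣ n + p ^ m * h),
        FF χ ((p : ℤ) ^ m * (h : ℤ)) (n : ℤ) * (ws q s G l1 (n + p ^ m * h) *
          (starRingEnd ℂ) (ws q s G l2 n))‖ ≤ Real.exp Λ ^ 2 *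
      ‖∑ n ∈ (Icc 1 M).filter (fun n => l2 ∣ n ∧ l1 ∣ n + p ^ m * h),
        FF χ ((p : ℤ) ^ m * (h : ℤ)) (n : ℤ) * (ww q 0 G' l1 (n + p ^ m * h) *
          (starRingEnd ℂ) (ww q 0 G' l2 n))‖ := by
    intro h _
    have e1 : ∑ n ∈ (Icc 1 M).filter (fun n => l2 ∣ n ∧ l1 ∣ n + p ^ m * h),
        FF χ ((p : ℤ) ^ m * (h : ℤ)) (n : ℤ) * (ws q s G l1 (n + p ^ m * h) *
          (starRingEnd ℂ) (ws q s G l2 n)) = (c1 * (starRingEnd ℂ) c2) *
        ∑ n ∈ (Icc 1 M).filter (fun n => l2 ∣ n ∧ l1 ∣ n + p ^ m * h),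
        FF χ ((p : ℤ) ^ m * (h : ℤ)) (n : ℤ) * (ww q 0 G' l1 (n + p ^ m * h) *
          (starRingEnd ℂ) (ww q 0 G' l2 n)) := by
      rw [mul_sum]
      refine sum_congr rfl fun n hn => ?_
      rw [mem_filter, mem_Icc] at hn
      have hn1 : 1 ≤ n + p ^ m * h := le_trans hn.1.1 (Nat.le_add_right _ _)
      rw [hw l1 _ hl1 hn1, hw l2 n hl2 hn.1.1, ← hc1, ← hc2, map_mul]
      ring
    rw [e1, norm_mul, norm_mul, RCLike.norm_conj]
    apply mul_le_mul_of_nonneg_right _ (norm_nonneg _)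
    rw [sq]
    exact mul_le_mul hn1 hn2 (norm_nonneg _) (Real.exp_pos _).le
  refine (sum_le_sum hcmp).trans ?_
  rw [← mul_sum]
  refine (mul_le_mul_of_nonneg_left hO1 (by positivity)).trans ?_
  -- the powers
  have p1 : (1 + ‖c‖) ^ 4 ≤ A ^ 4 * (Real.log q) ^ 4 := by
    rw [← mul_pow]
    exact pow_le_pow_left₀ (by positivity) hcn 4
  have p2 : Real.log q ≤ 16 / η₀ * q ^ (η₀ / 16) := by
    have h1 := Real.log_le_rpow_div hq0.le (by positivity : 0 < η₀ / 16)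
    have h2 : q ^ (η₀ / 16) / (η₀ / 16) = 16 / η₀ * q ^ (η₀ / 16) := by
      field_simp
    rwa [h2] at h1
  have p3 : (Real.log q) ^ 4 ≤ (16 / η₀) ^ 4 * q ^ (η₀ / 4) := by
    have h1 := pow_le_pow_left₀ hL0.le p2 4
    rw [mul_pow] at h1
    have h2 : (q ^ (η₀ / 16)) ^ 4 = q ^ (η₀ / 4) := by
      rw [← Real.rpow_natCast, ← Real.rpow_mul hq0.le]
      congr 1
      push_cast
      ring
    rwa [h2] at h1
  have p4 : (q ^ (κ / 2)) ^ 2 ≤ q ^ (η₀ / 4) := by
    rw [← Real.rpow_natCast, ← Real.rpow_mul hq0.le]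
    apply Real.rpow_le_rpow_of_exponent_le hq1.le
    push_cast
    linarith
  have p5 : q ^ (η₀ / 4) * q ^ (η₀ / 4) * q ^ (-η₀) = q ^ (-(η₀ / 2)) := by
    rw [← Real.rpow_add hq0, ← Real.rpow_add hq0]
    congr 1
    ring
  have e1 : Real.exp Λ ^ 2 * (C * (B * Mx * (1 + ‖c‖) ^ 2) ^ 2 * q ^ (-η₀)) =
      C * Real.exp Λ ^ 4 * B ^ 2 * ((q ^ (κ / 2)) ^ 2 * (1 + ‖c‖) ^ 4 * q ^ (-η₀)) := by
    rw [hMx]
    ring
  rw [e1]
  have e2 : (q ^ (κ / 2)) ^ 2 * (1 + ‖c‖) ^ 4 ≤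
      q ^ (η₀ / 4) * (A ^ 4 * ((16 / η₀) ^ 4 * q ^ (η₀ / 4))) := by
    apply mul_le_mul p4 _ (by positivity) (qpos _).le
    exact p1.trans (mul_le_mul_of_nonneg_left p3 (by positivity))
  have e3 : (q ^ (κ / 2)) ^ 2 * (1 + ‖c‖) ^ 4 * q ^ (-η₀) ≤
      q ^ (η₀ / 4) * (A ^ 4 * ((16 / η₀) ^ 4 * q ^ (η₀ / 4))) * q ^ (-η₀) :=
    mul_le_mul_of_nonneg_right e2 (qpos _).le
  have e4 : q ^ (η₀ / 4) * (A ^ 4 * ((16 / η₀) ^ 4 * q ^ (η₀ / 4))) * q ^ (-η₀) =
      A ^ 4 * (16 / η₀) ^ 4 * q ^ (-(η₀ / 2)) := by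
    rw [← p5]
    ring
  rw [e4] at e3
  refine (mul_le_mul_of_nonneg_left e3 (by positivity)).trans (le_of_eq ?_)
  ring

end Pool.Agent.Y872.R11
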